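import Mathlib

/-!
Everywhere defined paranormal operators are bounded.

Let `T` be paranormal and defined on the whole Banach space `H`.  The sets
`A k = {x : ‖T (T x)‖ ≤ k}` cover `H`, so by Baire's theorem the closure of one of them contains a
ball; by differences we get a ball `B(0, δ)` inside the closure of some `A k`.  On `A k` the
paranormality inequality gives `‖T (a - b)‖ ^ 2 ≤ 2 k ‖a - b‖`, so `T` is uniformly continuous
on `A k`, and since `A k` is absorbing this forces `‖T x‖ ^ 2 ≤ k ‖x‖` on the whole ball.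
-/

open Filter Topology Metric

namespace Pool.Agent.Results.MP_69a59d_an.ParanormalBounded

/-- An operator `T : D(T) → H` is paranormal if `‖T x‖² ≤ ‖T² x‖ ‖x‖` for all `x ∈ D(T²)`, that is,
for all `x ∈ D(T)` with `T x ∈ D(T)`. -/
def IsParanormal {𝕜 H : Type*} [RCLike 𝕜] [NormedAddCommGroup H] [NormedSpace 𝕜 H]
    (T : H →ₗ.[𝕜] H) : Prop :=
  ∀ (x : T.domain) (hx : T x ∈ T.domain), ‖T x‖ ^ 2 ≤ ‖T ⟨T x, hx⟩‖ * ‖(x : H)‖

/-- An operator `T : D(T) → H` is bounded if `‖T x‖ ≤ C ‖x‖` on `D(T)` for some constant `C`. -/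
def IsBounded {𝕜 H : Type*} [RCLike 𝕜] [NormedAddCommGroup H] [NormedSpace 𝕜 H]
    (T : H →ₗ.[𝕜] H) : Prop :=
  ∃ C : ℝ, ∀ x : T.domain, ‖T x‖ ≤ C * ‖(x : H)‖

section total

variable {𝕜 H : Type*} [RCLike 𝕜] [NormedAddCommGroup H] [NormedSpace 𝕜 H]

/-- The key estimate on a ball. -/
theorem key_estimate [CompleteSpace H] (T : H →ₗ[𝕜] H)
    (hT : ∀ x, ‖T x‖ ^ 2 ≤ ‖T (T x)‖ * ‖x‖) :
    ∃ δ > 0, ∃ k : ℝ, 0 < k ∧ ∀ x, ‖x‖ < δ → ‖T x‖ ^ 2 ≤ k * ‖x‖ := by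
  classical
  -- Baire
  have hcover : (⋃ n : ℕ, closure {x : H | ‖T (T x)‖ ≤ n}) = Set.univ := by
    refine Set.eq_univ_of_forall fun x => ?_
    obtain ⟨n, hn⟩ := exists_nat_ge ‖T (T x)‖
    exact Set.mem_iUnion.2 ⟨n, subset_closure hn⟩
  obtain ⟨n, hn⟩ := nonempty_interior_of_iUnion_of_closed (fun _ => isClosed_closure) hcover
  obtain ⟨x₀, hx₀⟩ := hn
  obtain ⟨δ, hδ, hball⟩ := Metric.isOpen_iff.1 isOpen_interior x₀ hx₀
  set k : ℝ := 2 * n + 1 with hk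
  have hk0 : 0 < k := by positivity
  refine ⟨δ, hδ, k, hk0, fun x hx => ?_⟩
  -- a sequence in `A k` converging to `x`
  have h0 : x₀ ∈ closure {x : H | ‖T (T x)‖ ≤ n} := interior_subset hx₀
  have h1 : x₀ + x ∈ closure {x : H | ‖T (T x)‖ ≤ n} := by
    refine interior_subset (hball ?_)
    rw [mem_ball, dist_eq_norm, add_sub_cancel_left]
    exact hx
  obtain ⟨b, hb, hblim⟩ := mem_closure_iff_seq_limit.1 h0
  obtain ⟨a, ha, halim⟩ := mem_closure_iff_seq_limit.1 h1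
  set u : ℕ → H := fun j => a j - b j with hu
  have hulim : Tendsto u atTop (𝓝 x) := by
    have := halim.sub hblim
    rwa [add_sub_cancel_left] at this
  have huk : ∀ j, ‖T (T (u j))‖ ≤ k := by
    intro j
    have h2 : ‖T (T (a j))‖ ≤ n := ha j
    have h3 : ‖T (T (b j))‖ ≤ n := hb j
    calc ‖T (T (u j))‖ = ‖T (T (a j)) - T (T (b j))‖ := by rw [hu]; simp only [map_sub]
      _ ≤ ‖T (T (a j))‖ + ‖T (T (b j))‖ := norm_sub_le _ _
      _ ≤ k := by rw [hk]; linarith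
  -- a small scalar
  set c : ℝ := (1 + ‖T (T x)‖)⁻¹ with hc
  have hden : 0 < 1 + ‖T (T x)‖ := by positivity
  have hc0 : 0 < c := inv_pos.2 hden
  have hc1 : c ≤ 1 := inv_le_one_of_one_le₀ (by linarith [norm_nonneg (T (T x))])
  have hnc : ‖(c : 𝕜)‖ = c := by
    rw [RCLike.norm_ofReal, abs_of_pos hc0]
  have hcx : ‖T (T ((c : 𝕜) • x))‖ ≤ k := by
    rw [map_smul, map_smul, norm_smul, hnc, hc]
    have h4 : (1 + ‖T (T x)‖)⁻¹ * ‖T (T x)‖ ≤ 1 := by
      rw [inv_mul_le_iff₀ hden]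
      linarith
    have : (1 : ℝ) ≤ k := by rw [hk]; linarith [n.cast_nonneg (α := ℝ)]
    linarith
  have hcu : ∀ j, ‖T (T ((c : 𝕜) • u j))‖ ≤ k := by
    intro j
    rw [map_smul, map_smul, norm_smul, hnc]
    calc c * ‖T (T (u j))‖ ≤ 1 * ‖T (T (u j))‖ := by gcongr
      _ ≤ k := by rw [one_mul]; exact huk j
  -- continuity of `T` along the sequence
  have hbound : ∀ j, ‖T ((c : 𝕜) • (u j - x))‖ ^ 2 ≤ 2 * k * ‖(c : 𝕜) • (u j - x)‖ := by
    intro j
    refine (hT _).trans ?_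
    gcongr
    calc ‖T (T ((c : 𝕜) • (u j - x)))‖ = ‖T (T ((c : 𝕜) • u j)) - T (T ((c : 𝕜) • x))‖ := by
          rw [smul_sub, map_sub, map_sub]
      _ ≤ ‖T (T ((c : 𝕜) • u j))‖ + ‖T (T ((c : 𝕜) • x))‖ := norm_sub_le _ _
      _ ≤ 2 * k := by linarith [hcu j]
  have hdiff : Tendsto (fun j => u j - x) atTop (𝓝 0) := by
    have := hulim.sub (tendsto_const_nhds (x := x))
    rwa [sub_self] at this
  have hsq : Tendsto (fun j => ‖T ((c : 𝕜) • (u j - x))‖ ^ 2) atTop (𝓝 0) := by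
    have hlim : Tendsto (fun j => 2 * k * ‖(c : 𝕜) • (u j - x)‖) atTop (𝓝 0) := by
      have h5 : Tendsto (fun j => (c : 𝕜) • (u j - x)) atTop (𝓝 ((c : 𝕜) • (0 : H))) :=
        hdiff.const_smul _
      have h6 := (h5.norm).const_mul (2 * k)
      simpa using h6
    exact squeeze_zero (fun j => by positivity) hbound hlim
  have hnorm : Tendsto (fun j => ‖T (u j) - T x‖) atTop (𝓝 0) := by
    have h7 : Tendsto (fun j => ‖T ((c : 𝕜) • (u j - x))‖) atTop (𝓝 0) := by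
      have := hsq.sqrt
      simpa using this
    have h8 := h7.const_mul (c⁻¹)
    rw [mul_zero] at h8
    refine h8.congr fun j => ?_
    rw [map_smul, norm_smul, hnc, map_sub, ← mul_assoc, inv_mul_cancel₀ hc0.ne', one_mul]
  have hTu : Tendsto (fun j => T (u j)) atTop (𝓝 (T x)) :=
    tendsto_iff_norm_sub_tendsto_zero.2 hnorm
  -- pass to the limit
  refine le_of_tendsto_of_tendsto ((hTu.norm).pow 2) ((hulim.norm).const_mul k)
    (Eventually.of_forall fun j => ?_)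
  refine (hT (u j)).trans ?_
  exact mul_le_mul_of_nonneg_right (huk j) (norm_nonneg _)

theorem bounded_of_total [CompleteSpace H] (T : H →ₗ[𝕜] H)
    (hT : ∀ x, ‖T x‖ ^ 2 ≤ ‖T (T x)‖ * ‖x‖) : ∃ C : ℝ, ∀ x, ‖T x‖ ≤ C * ‖x‖ := by
  obtain ⟨δ, hδ, k, hk, h⟩ := key_estimate T hT
  refine ⟨Real.sqrt (k * (δ / 2)) * (2 / δ), fun x => ?_⟩
  rcases eq_or_ne x 0 with rfl | hx
  · simp
  have hxn : 0 < ‖x‖ := norm_pos_iff.2 hx
  set s : ℝ := δ / 2 / ‖x‖ with hs
  have hs0 : 0 < s := by positivity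
  have hns : ‖(s : 𝕜)‖ = s := by rw [RCLike.norm_ofReal, abs_of_pos hs0]
  have hsx : ‖(s : 𝕜) • x‖ = δ / 2 := by
    rw [norm_smul, hns, hs, div_mul_cancel₀ _ hxn.ne']
  have h1 := h ((s : 𝕜) • x) (by rw [hsx]; linarith)
  rw [hsx, map_smul, norm_smul, hns] at h1
  have h2 : s * ‖T x‖ ≤ Real.sqrt (k * (δ / 2)) := Real.le_sqrt_of_sq_le h1
  calc ‖T x‖ = (s * ‖T x‖) * s⁻¹ := by field_simp
    _ ≤ Real.sqrt (k * (δ / 2)) * s⁻¹ := by gcongr
    _ = Real.sqrt (k * (δ / 2)) * (2 / δ) * ‖x‖ := by rw [hs]; field_simp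

end total

/-- **Negative answer to Q1.** Every paranormal operator defined on the whole of a complete
normed space (in particular on the whole of a complex Hilbert space) is bounded. -/
theorem result {𝕜 H : Type*} [RCLike 𝕜] [NormedAddCommGroup H] [NormedSpace 𝕜 H] [CompleteSpace H]
    (T : H →ₗ.[𝕜] H) (hdom : T.domain = ⊤) (hT : IsParanormal T) : IsBounded T := by
  have hall : ∀ y : H, y ∈ T.domain := fun y => by rw [hdom]; trivial
  let S : H →ₗ[𝕜] H := T.toFun.comp (LinearMap.codRestrict T.domain LinearMap.id hall)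
  have hS : ∀ x : T.domain, S x = T x := fun x => rfl
  have hpar : ∀ x, ‖S x‖ ^ 2 ≤ ‖S (S x)‖ * ‖x‖ := by
    intro x
    exact hT ⟨x, hall x⟩ (hall _)
  obtain ⟨C, hC⟩ := bounded_of_total S hpar
  exact ⟨C, fun x => hC x⟩

end Pool.Agent.Results.MP_69a59d_an.ParanormalBounded
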